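import Mathlib

/-!
# Squad PP, part D2: projective modules and a local corner (abstract part of PCV)
-/

open scoped BigOperators

noncomputable section

namespace Pool.Agent.PP.CD2.H89

variable {F A : Type} [Field F] [Ring A] [Algebra F A]

/-- the vectors fixed by `e` -/
def fx (e : A) (V : Type) [AddCommGroup V] [Module F V] [Module A V] [IsScalarTower F A V] :
    Submodule F V where
  carrier := {v | e • v = v}
  add_mem' := by
    intro a c ha hc
    change e • (a + c) = a + c
    rw [smul_add]
    rw [show e • a = a from ha, show e • c = c from hc]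
  zero_mem' := smul_zero e
  smul_mem' := by
    intro c v hv
    change e • (c • v) = c • v
    rw [smul_algebra_smul_comm, show e • v = v from hv]

theorem mem_fx {e : A} {V : Type} [AddCommGroup V] [Module F V] [Module A V]
    [IsScalarTower F A V] {v : V} : v ∈ fx (F := F) e V ↔ e • v = v := Iff.rfl

variable (F) in
/-- the corner -/
def ce (e : A) : Submodule F A where
  carrier := {a | e * a = a ∧ a * e = a}
  add_mem' := by
    rintro a c ⟨h1, h2⟩ ⟨h3, h4⟩
    exact ⟨by rw [mul_add, h1, h3], by rw [add_mul, h2, h4]⟩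
  zero_mem' := ⟨mul_zero _, zero_mul _⟩
  smul_mem' := by
    rintro c a ⟨h1, h2⟩
    exact ⟨by rw [mul_smul_comm, h1], by rw [smul_mul_assoc, h2]⟩

theorem mem_ce {e a : A} : a ∈ ce F e ↔ e * a = a ∧ a * e = a := Iff.rfl

/-- the left ideal of the elements with `a e = a` -/
def le (e : A) : Submodule A A where
  carrier := {a | a * e = a}
  add_mem' := by
    intro a c ha hc
    change (a + c) * e = a + c
    rw [add_mul, show a * e = a from ha, show c * e = c from hc]
  zero_mem' := zero_mul e
  smul_mem' := by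
    intro c a ha
    change c * a * e = c * a
    rw [mul_assoc, show a * e = a from ha]

theorem mem_le {e a : A} : a ∈ le e ↔ a * e = a := Iff.rfl

/-- a basis of a subspace modulo another subspace -/
theorem exists_xi {V : Type} [AddCommGroup V] [Module F V] [FiniteDimensional F V]
    (U T : Submodule F V) : ∃ (r : ℕ) (ξ : Fin r → V), (∀ k, ξ k ∈ U) ∧
    (∀ α : Fin r → F, ∑ k, α k • ξ k ∈ T → ∀ k, α k = 0) ∧
    ∀ u ∈ U, ∃ α : Fin r → F, u - ∑ k, α k • ξ k ∈ T := by
  obtain ⟨S, hS⟩ := Submodule.exists_isCompl (T.comap U.subtype)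
  let β := Module.finBasis F S
  refine ⟨_, fun k => ((β k : U) : V), fun k => (β k : U).2, ?_, ?_⟩
  · intro α hα
    have h1 : (∑ k, α k • (β k : U)) ∈ T.comap U.subtype := by
      rw [Submodule.mem_comap, map_sum]
      exact hα
    have h2 : (∑ k, α k • (β k : U)) ∈ S :=
      Submodule.sum_mem _ fun k _ => Submodule.smul_mem _ _ (β k).2
    have h3 : (∑ k, α k • (β k : U)) = 0 := by
      have := hS.disjoint.le_bot ⟨h1, h2⟩
      exact this
    have h4 : (∑ k, α k • β k) = 0 := by
      apply Subtype.ext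
      change S.subtype _ = 0
      rw [map_sum]
      exact h3
    exact fun k => (Fintype.linearIndependent_iff.1 β.linearIndependent) α h4 k
  · intro u hu
    have h1 : (⟨u, hu⟩ : U) ∈ T.comap U.subtype ⊔ S := by
      rw [hS.sup_eq_top]
      trivial
    obtain ⟨t, ht, s, hs, hts⟩ := Submodule.mem_sup.1 h1
    refine ⟨fun k => β.repr ⟨s, hs⟩ k, ?_⟩
    have h2 : ∑ k, β.repr ⟨s, hs⟩ k • β k = ⟨s, hs⟩ := β.sum_repr _
    have h3 : ∑ k, β.repr ⟨s, hs⟩ k • ((β k : U) : V) = (s : V) := by
      have := congrArg (fun z : S => ((z : U) : V)) h2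
      change (U.subtype ∘ₗ S.subtype) (∑ k, β.repr ⟨s, hs⟩ k • β k) = _ at this
      rw [map_sum] at this
      exact this
    rw [h3]
    have h4 : u - (s : V) = (t : V) := by
      have := congrArg (fun z : U => (z : V)) hts
      change (t : V) + (s : V) = u at this
      rw [← this, add_sub_cancel_right]
    rw [h4]
    exact ht

variable {V : Type} [AddCommGroup V] [Module F V] [Module A V] [IsScalarTower F A V]

theorem fx_pi [FiniteDimensional F A] (e : A) (r : ℕ) :
    Module.finrank F (fx (F := F) e (Fin r → le e)) = r * Module.finrank F (ce F e) := by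
  let Θ : fx (F := F) e (Fin r → le e) ≃ₗ[F] (Fin r → ce F e) :=
    { toFun := fun u k => ⟨(u.1 k : A), by
        have h1 := congrFun (mem_fx.1 u.2) k
        exact ⟨congrArg Subtype.val h1, (u.1 k).2⟩⟩
      invFun := fun u => ⟨fun k => ⟨(u k : A), (mem_ce.1 (u k).2).2⟩, by
        rw [mem_fx]
        funext k
        exact Subtype.ext (mem_ce.1 (u k).2).1⟩
      left_inv := fun u => rfl
      right_inv := fun u => rfl
      map_add' := fun u v => rfl
      map_smul' := fun c u => rfl }
  rw [Θ.finrank_eq, Module.finrank_pi_fintype, Finset.sum_const, Finset.card_univ, Fintype.card_fin,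
    smul_eq_mul]

theorem sum_sg (e : A) (hle : e ∈ le e) {r : ℕ} (u : Fin r → le e) :
    u = ∑ k, (u k : A) • (Pi.single k (⟨e, hle⟩ : le e) : Fin r → le e) := by
  funext j
  rw [Finset.sum_apply, Finset.sum_eq_single j]
  · rw [Pi.smul_apply, Pi.single_eq_same]
    exact Subtype.ext (mem_le.1 (u j).2).symm
  · intro k _ hk
    rw [Pi.smul_apply, Pi.single_eq_of_ne (Ne.symm hk), smul_zero]
  · intro h
    exact absurd (Finset.mem_univ _) h

theorem sum_f (e : A) (hle : e ∈ le e) {r : ℕ} {M : Type} [AddCommGroup M] [Module A M]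
    (f : (Fin r → le e) →ₗ[A] M) (u : Fin r → le e) :
    f u = ∑ k, (u k : A) • f (Pi.single k (⟨e, hle⟩ : le e)) := by
  have h := congrArg f (sum_sg e hle u)
  rw [map_sum] at h
  refine h.trans (Finset.sum_congr rfl fun k _ => ?_)
  exact map_smul f _ _

theorem abs_pcv [FiniteDimensional F A] [FiniteDimensional F V] (e : A) (he : e * e = e)
    (h1 : ∀ a : A, e * a = a → a * e = a → ∃ α : F, a - α • e ∈ Ring.jacobson A)
    (m : ℕ) (x y : Fin m → A) (hV : ∀ v : V, (∑ k, x k * e * y k) • v = v)
    (hA : ∀ a : A, (∑ k, x k * e * y k) * (a * e) = a * e) [Module.Projective A V] :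
    Module.finrank F (ce F e) ∣ Module.finrank F (fx (F := F) e V) := by
  have hfV : Module.Finite A V := Module.Finite.of_restrictScalars_finite F A V
  obtain ⟨r, ξ, hξ1, hξ2, hξ3⟩ := exists_xi (fx (F := F) e V)
    ((Ring.jacobson A • (⊤ : Submodule A V)).restrictScalars F)
  have hmem : ∀ (M : Type) [AddCommGroup M] [Module A M] (W : Submodule A M),
      (∀ v ∈ W, (∑ k, x k * e * y k) • v = v) →
      (∀ v ∈ W, e • v = v → v ∈ Ring.jacobson A • W) → W ≤ Ring.jacobson A • W := by
    intro M _ _ W hb hW v hv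
    rw [← hb v hv, Finset.sum_smul]
    refine Submodule.sum_mem _ fun k _ => ?_
    rw [mul_smul, mul_smul]
    refine Submodule.smul_mem _ _ (hW _ (W.smul_mem _ (W.smul_mem _ hv)) ?_)
    rw [← mul_smul, he]
  let Φ : (Fin r → le e) →ₗ[A] V := ∑ k, (LinearMap.toSpanSingleton A V (ξ k)) ∘ₗ
    (le e).subtype ∘ₗ LinearMap.proj k
  have hΦ : ∀ u, Φ u = ∑ k, (u k : A) • ξ k := by
    intro u
    rw [LinearMap.sum_apply]
    rfl
  have hle : e ∈ le e := he
  -- surjectivity
  have hsur : LinearMap.range Φ = ⊤ := by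
    have hN : (⊤ : Submodule A (V ⧸ LinearMap.range Φ)) = ⊥ := by
      have hfg : (⊤ : Submodule A (V ⧸ LinearMap.range Φ)).FG := Module.finite_def.1 inferInstance
      refine hfg.eq_bot_of_le_jacobson_smul (hmem _ _ ?_ ?_)
      · rintro v -
        obtain ⟨v, rfl⟩ := Submodule.mkQ_surjective _ v
        rw [← map_smul, hV]
      · rintro v - hv
        obtain ⟨v, rfl⟩ := Submodule.mkQ_surjective _ v
        have h2 : (LinearMap.range Φ).mkQ v = (LinearMap.range Φ).mkQ (e • v) := by
          rw [map_smul]
          exact hv.symm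
        rw [h2]
        obtain ⟨α, hα⟩ := hξ3 (e • v) (by rw [mem_fx, ← mul_smul, he])
        have h3 : ∑ k, α k • ξ k ∈ LinearMap.range Φ := by
          refine ⟨fun k => α k • ⟨e, hle⟩, ?_⟩
          rw [hΦ]
          refine Finset.sum_congr rfl fun k _ => ?_
          change (α k • e) • ξ k = _
          rw [smul_assoc, mem_fx.1 (hξ1 k)]
        have h4 : (LinearMap.range Φ).mkQ (e • v) =
            (LinearMap.range Φ).mkQ (e • v - ∑ k, α k • ξ k) := by
          have h3' : (LinearMap.range Φ).mkQ (∑ k, α k • ξ k) = 0 :=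
            (Submodule.Quotient.mk_eq_zero _).2 h3
          rw [map_sub, h3', sub_zero]
        rw [h4]
        have h5 : (LinearMap.range Φ).mkQ (e • v - ∑ k, α k • ξ k) ∈
            (Ring.jacobson A • (⊤ : Submodule A V)).map (LinearMap.range Φ).mkQ :=
          ⟨_, hα, rfl⟩
        rw [Submodule.map_smul''] at h5
        exact (Submodule.smul_mono le_rfl le_top) h5
    rw [eq_top_iff]
    rintro v -
    have h2 : (LinearMap.range Φ).mkQ v ∈ (⊤ : Submodule A (V ⧸ LinearMap.range Φ)) := trivial
    rw [hN] at h2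
    exact (Submodule.Quotient.mk_eq_zero _).1 h2
  obtain ⟨s, hs⟩ := Module.projective_lifting_property Φ LinearMap.id
    (LinearMap.range_eq_top.1 hsur)
  have hs' : ∀ v, Φ (s v) = v := fun v => LinearMap.congr_fun hs v
  -- the kernel
  have hfin : Module.Finite A (Fin r → le e) := Module.Finite.of_restrictScalars_finite F A _
  let π : (Fin r → le e) →ₗ[A] (Fin r → le e) := LinearMap.id - s ∘ₗ Φ
  have hπ : ∀ u, π u ∈ LinearMap.ker Φ := by
    intro u
    change Φ (u - s (Φ u)) = 0
    rw [map_sub, hs', sub_self]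
  have hker : LinearMap.ker Φ = ⊥ := by
    have hfg : (LinearMap.ker Φ).FG := by
      have : IsNoetherian A (Fin r → le e) := isNoetherian_of_tower F inferInstance
      exact IsNoetherian.noetherian _
    refine hfg.eq_bot_of_le_jacobson_smul (hmem _ _ ?_ ?_)
    · intro u _
      funext k
      apply Subtype.ext
      change (∑ k, x k * e * y k) * (u k : A) = u k
      have := hA (u k : A)
      rwa [(mem_le.1 (u k).2)] at this
    · intro u hu heu
      have h2 : ∀ k, e * (u k : A) = u k := fun k => congrArg Subtype.val (congrFun heu k)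
      have h3 : ∀ k, (u k : A) * e = u k := fun k => (u k).2
      choose α hα using fun k => h1 (u k : A) (h2 k) (h3 k)
      have h4 : ∑ k, α k • ξ k ∈ (Ring.jacobson A • (⊤ : Submodule A V)).restrictScalars F := by
        have h5 : ∑ k, α k • ξ k = - ∑ k, ((u k : A) - α k • e) • ξ k := by
          have h6 : ∑ k, (u k : A) • ξ k = 0 := by
            rw [← hΦ]
            exact hu
          have h7 : ∑ k, ((u k : A) - α k • e) • ξ k = ∑ k, (u k : A) • ξ k - ∑ k, α k • ξ k := by
            rw [← Finset.sum_sub_distrib]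
            refine Finset.sum_congr rfl fun k _ => ?_
            rw [sub_smul, smul_assoc, mem_fx.1 (hξ1 k)]
          rw [h7, h6, zero_sub, neg_neg]
        have h6 : ∑ k, ((u k : A) - α k • e) • ξ k ∈ Ring.jacobson A • (⊤ : Submodule A V) :=
          Submodule.sum_mem _ fun k _ => Submodule.smul_mem_smul (hα k) Submodule.mem_top
        have h7 : - ∑ k, ((u k : A) - α k • e) • ξ k ∈ Ring.jacobson A • (⊤ : Submodule A V) :=
          Submodule.neg_mem _ h6
        rw [h5]
        exact h7
      have h5 : ∀ k, (u k : A) ∈ Ring.jacobson A := by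
        intro k
        have := hα k
        rwa [hξ2 α h4 k, zero_smul, sub_zero] at this
      have h6 : π u = u := by
        change u - s (Φ u) = u
        rw [show Φ u = 0 from hu, map_zero, sub_zero]
      have h7 := sum_f e hle π u
      rw [h6] at h7
      rw [h7]
      exact Submodule.sum_mem _ fun k _ => Submodule.smul_mem_smul (h5 k) (hπ _)
  -- the dimension
  have hbij : Function.Bijective Φ := ⟨LinearMap.ker_eq_bot.1 hker, LinearMap.range_eq_top.1 hsur⟩
  let Ψ : (Fin r → le e) ≃ₗ[A] V := LinearEquiv.ofBijective Φ hbij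
  have hmap : (fx (F := F) e (Fin r → le e)).map
      ((Ψ.restrictScalars F : (Fin r → le e) ≃ₗ[F] V) : (Fin r → le e) →ₗ[F] V) =
      fx (F := F) e V := by
    ext v
    constructor
    · rintro ⟨u, hu, rfl⟩
      change e • Ψ u = Ψ u
      rw [← map_smul, mem_fx.1 hu]
    · intro hv
      refine ⟨Ψ.symm v, ?_, Ψ.apply_symm_apply v⟩
      change e • Ψ.symm v = Ψ.symm v
      rw [← map_smul, mem_fx.1 hv]
  have h2 : Module.finrank F (fx (F := F) e V) =
      Module.finrank F (fx (F := F) e (Fin r → le e)) := by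
    rw [← hmap]
    exact LinearEquiv.finrank_map_eq (Ψ.restrictScalars F) _
  rw [h2, fx_pi e r]
  exact Dvd.intro_left _ rfl

end Pool.Agent.PP.CD2.H89
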