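import Pool.Agent.Helper66_D2.Tool
import Pool.Agent.Helper94_PP.Clr
import Pool.Agent.Helper89_D2.Corner

/-!
# Squad PP, part D2: PCV
-/

open scoped BigOperators

set_option linter.unusedSectionVars false

noncomputable section

namespace Pool.Agent.PP.CD2.H89

open Pool.Agent.PP Pool.Agent.Helper51_AWC Pool.Agent.Helper79_WRA Pool.Agent.PP.H20

variable {F : Type} [Field F] {G : Type} [Group G] [Finite G]

/-- a matrix below an idempotent matrix of rank one is a multiple of it -/
theorem rank_one {k : ℕ} {E B : Matrix (Fin k) (Fin k) F} (hr : E.rank = 1) (hB : E * B = B)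
    (hB' : B * E = B) : ∃ α : F, B = α • E := by
  obtain ⟨⟨t, ht⟩, -, h1⟩ := finrank_eq_one_iff'.1 (show Module.finrank F
    (LinearMap.range E.mulVecLin) = 1 from hr)
  have h2 : ∀ v, ∃ c : F, c • t = E.mulVec v := by
    intro v
    obtain ⟨c, hc⟩ := h1 ⟨E.mulVec v, ⟨v, rfl⟩⟩
    exact ⟨c, congrArg Subtype.val hc⟩
  obtain ⟨α, hα⟩ := h2 (B.mulVec t)
  rw [Matrix.mulVec_mulVec, hB] at hα
  refine ⟨α, ?_⟩
  have h3 : ∀ v, B.mulVec v = (α • E).mulVec v := by
    intro v
    obtain ⟨c, hc⟩ := h2 v
    rw [Matrix.smul_mulVec, ← hc]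
    have h4 : B.mulVec v = B.mulVec (E.mulVec v) := by rw [Matrix.mulVec_mulVec, hB']
    rw [h4, ← hc, Matrix.mulVec_smul, ← hα, smul_comm]
  apply Matrix.mulVec_injective
  funext v
  exact h3 v

/-- an element which vanishes on the irreducible representation over `b` is in the radical -/
theorem mem_jac {ℓ : ℕ} (hF : GoodF ℓ F) {b : G → F} (hb : IsIdem b) {k : ℕ}
    {σ : G →* Matrix (Fin k) (Fin k) F} (hσ : Uq b σ) {z : MonoidAlgebra F G}
    (hz : toMA b * z = z) (h0 : repA σ z = 0) : z ∈ Ring.jacobson (MonoidAlgebra F G) := by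
  have := hF.closed
  rw [← H94.inJ_iff]
  intro n ρ hρ
  obtain ⟨c, hc, -, hc'⟩ := eig F G n ρ hρ b hb.1
  have e1 : repA ρ (toMA b) = ev ρ b := lift_toMA ρ b
  rcases hc' hb with hw | hw
  · have h1 : ev ρ b = 0 := by
      rw [hc, hw, map_zero]
    rw [← hz, map_mul, e1, h1, zero_mul]
  · have h1 : ev ρ b = 1 := by
      rw [hc, hw, map_one]
    obtain ⟨X, Y, hnm, hXY, hYX, hX⟩ := ibc ℓ F hF G n k ρ σ hρ hσ.irr (hσ.uniq n ρ hρ h1)
    have h2 : ∀ a : MonoidAlgebra F G, X * repA ρ a = repA σ a * X := by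
      intro a
      induction a using MonoidAlgebra.induction_linear with
      | zero => rw [map_zero, map_zero, Matrix.mul_zero, Matrix.zero_mul]
      | add x y hx hy => rw [map_add, map_add, Matrix.mul_add, Matrix.add_mul, hx, hy]
      | single g c =>
        rw [repA_single, repA_single, Matrix.mul_smul, Matrix.smul_mul, hX g]
    have h3 := h2 z
    rw [h0, Matrix.zero_mul] at h3
    have h4 : repA ρ z = Y * (X * repA ρ z) := by
      rw [← Matrix.mul_assoc, hYX, Matrix.one_mul]
    rw [h4, h3, Matrix.mul_zero]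

section proj

variable {V : Type} [AddCommGroup V] [Module F V] [Module (MonoidAlgebra F G) V]
  [IsScalarTower F (MonoidAlgebra F G) V]

theorem lin_of_single {M : Type} [AddCommGroup M] [Module F M] [Module (MonoidAlgebra F G) M]
    [IsScalarTower F (MonoidAlgebra F G) M] (f : V →ₗ[F] M)
    (h : ∀ (x : G) v, f (MonoidAlgebra.single x (1 : F) • v) =
      MonoidAlgebra.single x (1 : F) • f v) (a : MonoidAlgebra F G) (v : V) :
    f (a • v) = a • f v := by
  induction a using MonoidAlgebra.induction_linear with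
  | zero => rw [zero_smul, zero_smul, map_zero]
  | add x y hx hy => rw [add_smul, add_smul, map_add, hx, hy]
  | single g r =>
    have e : MonoidAlgebra.single g r = r • (MonoidAlgebra.single g 1 : MonoidAlgebra F G) := by
      rw [MonoidAlgebra.smul_single, smul_eq_mul, mul_one]
    rw [e, smul_assoc, smul_assoc, map_smul, h]

theorem proj_of [Fintype G] (ψ : V →ₗ[F] V) (h : ∀ v : V, ∑ g : G,
    (MonoidAlgebra.single g (1 : F) : MonoidAlgebra F G) • ψ
      ((MonoidAlgebra.single g⁻¹ (1 : F) : MonoidAlgebra F G) • v) = v) :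
    Module.Projective (MonoidAlgebra F G) V := by
  let p : (V →₀ MonoidAlgebra F G) →ₗ[MonoidAlgebra F G] V :=
    Finsupp.linearCombination (MonoidAlgebra F G) (id : V → V)
  have hp : Function.Surjective p := by
    intro v
    refine ⟨Finsupp.single v 1, ?_⟩
    change Finsupp.linearCombination (MonoidAlgebra F G) (id : V → V) (Finsupp.single v 1) = v
    rw [Finsupp.linearCombination_single, one_smul]
    rfl
  obtain ⟨s₀, hs₀⟩ := LinearMap.exists_rightInverse_of_surjective (p.restrictScalars F)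
    (LinearMap.range_eq_top.2 hp)
  have hs₁ : ∀ v, p (s₀ v) = v := fun v => LinearMap.congr_fun hs₀ v
  let act : G → V →ₗ[F] V := fun g =>
    { toFun := fun v => (MonoidAlgebra.single g (1 : F) : MonoidAlgebra F G) • v
      map_add' := fun v w => smul_add _ _ _
      map_smul' := fun c v => smul_algebra_smul_comm c _ v }
  let act' : G → (V →₀ MonoidAlgebra F G) →ₗ[F] (V →₀ MonoidAlgebra F G) := fun g =>
    { toFun := fun v => (MonoidAlgebra.single g (1 : F) : MonoidAlgebra F G) • v
      map_add' := fun v w => smul_add _ _ _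
      map_smul' := fun c v => smul_algebra_smul_comm c _ v }
  let s₂ : V →ₗ[F] (V →₀ MonoidAlgebra F G) := ∑ g : G, act' g ∘ₗ s₀ ∘ₗ ψ ∘ₗ act g⁻¹
  have hs₂ : ∀ v, s₂ v = ∑ g : G, (MonoidAlgebra.single g (1 : F) : MonoidAlgebra F G) •
      s₀ (ψ ((MonoidAlgebra.single g⁻¹ (1 : F) : MonoidAlgebra F G) • v)) := by
    intro v
    rw [LinearMap.sum_apply]
    rfl
  have hs₃ : ∀ (x : G) v, s₂ ((MonoidAlgebra.single x (1 : F) : MonoidAlgebra F G) • v) =
      (MonoidAlgebra.single x (1 : F) : MonoidAlgebra F G) • s₂ v := by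
    intro x v
    rw [hs₂, hs₂, Finset.smul_sum]
    symm
    refine Fintype.sum_equiv (Equiv.mulLeft x) _ _ fun g => ?_
    change _ = (MonoidAlgebra.single (x * g) (1 : F) : MonoidAlgebra F G) •
      s₀ (ψ ((MonoidAlgebra.single (x * g)⁻¹ (1 : F) : MonoidAlgebra F G) • _))
    rw [← mul_smul, ← mul_smul, MonoidAlgebra.single_mul_single, MonoidAlgebra.single_mul_single,
      one_mul, mul_inv_rev, inv_mul_cancel_right]
  let s : V →ₗ[MonoidAlgebra F G] (V →₀ MonoidAlgebra F G) :=
    { toFun := s₂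
      map_add' := map_add s₂
      map_smul' := fun a v => lin_of_single s₂ hs₃ a v }
  refine Module.projective_def'.2 ⟨s, ?_⟩
  ext v
  change p (s₂ v) = v
  rw [hs₂, map_sum]
  conv_rhs => rw [← h v]
  refine Finset.sum_congr rfl fun g _ => ?_
  rw [map_smul, hs₁]

end proj

/-- **PCV** -/
theorem pcv : PcvStmt := by
  intro ℓ F _ hF G _ _ b hb k σ hσ i' hi V _ _ _ ρ hρ
  have := Fintype.ofFinite G
  let _ : Module (MonoidAlgebra F G) V := Module.compHom V (ρ.asAlgebraHom).toRingHom
  have hsm : ∀ (a : MonoidAlgebra F G) (v : V), a • v = ρ.asAlgebraHom a v := fun a v => rfl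
  have : IsScalarTower F (MonoidAlgebra F G) V := ⟨fun c a v => by
    rw [hsm, hsm, map_smul]
    rfl⟩
  have hev : ∀ (a : G → F) (v : V), toMA a • v = evV ρ a v := by
    intro a v
    rw [hsm, toMA_eq, map_sum, LinearMap.sum_apply, D66.evV_apply]
    refine Finset.sum_congr rfl fun g _ => ?_
    rw [Representation.asAlgebraHom_single]
    rfl
  have hsg : ∀ (g : G) (v : V),
      (MonoidAlgebra.single g (1 : F) : MonoidAlgebra F G) • v = ρ g v := by
    intro g v
    rw [hsm, Representation.asAlgebraHom_single, one_smul]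
  obtain ⟨m, x, y, hxy⟩ := hi.full
  obtain ⟨ψ, hψ⟩ := hρ.prj
  have he : toMA i' * toMA i' = toMA i' := by rw [← toMA_mulF, hi.ii]
  have hbe : toMA b * toMA i' = toMA i' := by rw [← toMA_mulF, hi.bi]
  have hxy' : (∑ k, toMA (x k) * toMA i' * toMA (y k)) = toMA b := by
    rw [← hxy, H66.toMA_sum]
    refine Finset.sum_congr rfl fun k _ => ?_
    rw [toMA_mulF, toMA_mulF, mul_assoc]
  have hproj : Module.Projective (MonoidAlgebra F G) V := by
    refine proj_of ψ fun v => ?_
    have h1 := LinearMap.congr_fun hψ v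
    rw [finsum_eq_sum_of_fintype, LinearMap.sum_apply] at h1
    refine Eq.trans (Finset.sum_congr rfl fun g _ => ?_) h1
    rw [hsg, hsg]
    rfl
  have hmain := abs_pcv (F := F) (A := MonoidAlgebra F G) (V := V) (toMA i') he ?_ m
    (fun k => toMA (x k)) (fun k => toMA (y k)) ?_ ?_
  · have h1 : (Submodule.span F (crn i')).map
        ((maE : (G → F) ≃ₗ[F] MonoidAlgebra F G) : (G → F) →ₗ[F] MonoidAlgebra F G) =
        ce F (toMA i') := by
      rw [Submodule.map_span]
      apply le_antisymm
      · rw [Submodule.span_le]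
        rintro _ ⟨a, ha, rfl⟩
        change toMA i' * toMA a = toMA a ∧ toMA a * toMA i' = toMA a
        rw [← toMA_mulF, ← toMA_mulF, ha.1, ha.2]
        exact ⟨rfl, rfl⟩
      · intro z hz
        obtain ⟨a, rfl⟩ := toMA_surjective z
        refine Submodule.subset_span ⟨a, ⟨toMA_injective ?_, toMA_injective ?_⟩, rfl⟩
        · rw [toMA_mulF]
          exact hz.1
        · rw [toMA_mulF]
          exact hz.2
    have h2 : Module.finrank F (Submodule.span F (crn i')) =
        Module.finrank F (ce F (toMA i')) := by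
      rw [← h1]
      exact (LinearEquiv.finrank_map_eq maE _).symm
    have h3 : LinearMap.range (evV ρ i') = fx (F := F) (toMA i') V := by
      ext v
      rw [mem_fx, hev]
      constructor
      · rintro ⟨u, rfl⟩
        rw [← hev, ← hev, ← mul_smul, he]
      · intro h
        exact ⟨v, h⟩
    rw [h2, h3]
    exact hmain
  · intro a h1 h2
    obtain ⟨α, hα⟩ := rank_one (E := ev σ i') (B := repA σ a) hi.rk (by
      rw [← lift_toMA]
      change repA σ (toMA i') * _ = _
      rw [← map_mul, h1]) (by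
      rw [← lift_toMA]
      change _ * repA σ (toMA i') = _
      rw [← map_mul, h2])
    refine ⟨α, mem_jac hF hb hσ ?_ ?_⟩
    · rw [mul_sub, mul_smul_comm, hbe]
      congr 1
      rw [← h1, ← mul_assoc, hbe]
    · rw [map_sub, map_smul, hα, ← lift_toMA]
      exact sub_self _
  · intro v
    rw [hxy', hev]
    exact hρ.one v
  · intro a
    rw [hxy']
    have h1 := (H20.isCl_iff b).1 hb.1
    rw [h1, mul_assoc, ← h1, hbe]

end Pool.Agent.PP.CD2.H89
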